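import Pool.Agent.W483.FB.Stm2

/-!
# FB: the closed form curve from the chains
-/

open Finset Matrix Filter
open scoped Topology

namespace Pool.Agent.W483.FB

lemma H2_zero : H2 0 = 0 := by simp [H2]

lemma h_zero : h 0 = 0 := by
  unfold h
  rw [sub_zero, Real.sqrt_one, mul_one, sub_self, H2_zero]

lemma H2_half : H2 (1 / 2) = 1 := by
  unfold H2
  have h1 : Real.logb 2 (1 / 2) = -1 := by
    rw [one_div, Real.logb_inv, Real.logb_self_eq_one (by norm_num)]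
  rw [show (1 : ℝ) - 1 / 2 = 1 / 2 by norm_num, h1]
  norm_num

lemma h_one : h 1 = 1 := by
  unfold h
  rw [sub_self, Real.sqrt_zero, mul_zero, sub_zero, H2_half]

lemma integral_half (γ : ℝ) (hγ : 0 ≤ γ) :
    ∫ θ in (0 : ℝ)..Real.pi, √(0 + (γ - 0) * ((1 - Real.cos θ) / 2)) = 2 * √γ := by
  have h1 : ∀ θ ∈ Set.uIcc (0 : ℝ) Real.pi,
      √(0 + (γ - 0) * ((1 - Real.cos θ) / 2)) = √γ * Real.sin (θ / 2) := by
    intro θ hθ
    rw [Set.uIcc_of_le Real.pi_pos.le] at hθ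
    have h2 : (1 - Real.cos θ) / 2 = Real.sin (θ / 2) ^ 2 := by
      have := Real.cos_sq (θ / 2)
      have h3 := Real.sin_sq_add_cos_sq (θ / 2)
      rw [show 2 * (θ / 2) = θ by ring] at this
      linarith
    rw [zero_add, sub_zero, h2, Real.sqrt_mul hγ, Real.sqrt_sq]
    exact Real.sin_nonneg_of_nonneg_of_le_pi (by linarith [hθ.1])
      (by linarith [hθ.2, Real.pi_pos])
  rw [intervalIntegral.integral_congr h1, intervalIntegral.integral_const_mul]
  have h4 : ∫ θ in (0 : ℝ)..Real.pi, Real.sin (θ / 2) = 2 := by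
    rw [intervalIntegral.integral_comp_div (fun x => Real.sin x) (by norm_num : (2 : ℝ) ≠ 0)]
    rw [integral_sin]
    simp
  rw [h4]
  ring

/-- For `1/2 - 1/π ≤ δ < 1/2` one has `R(δ) ≤ h(π² (1-2δ)² / 4) / 2`. -/
theorem t_curve (he : S_ellip) (δ : ℝ) (h1 : 1 / 2 - 1 / Real.pi ≤ δ) (h2 : δ < 1 / 2) :
    R δ ≤ h (Real.pi ^ 2 * (1 - 2 * δ) ^ 2 / 4) / 2 := by
  have hpi := Real.pi_pos
  have h3 : 0 ≤ Real.pi * (1 - 2 * δ) / 2 := by
    have : 0 < 1 - 2 * δ := by linarith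
    positivity
  have h4 : Real.pi * (1 - 2 * δ) / 2 ≤ 1 := by
    have h5 : 1 - 2 * δ ≤ 2 / Real.pi := by
      have : 2 / Real.pi = 2 * (1 / Real.pi) := by ring
      rw [this]; linarith
    calc Real.pi * (1 - 2 * δ) / 2 ≤ Real.pi * (2 / Real.pi) / 2 := by
          have := mul_le_mul_of_nonneg_left h5 hpi.le
          linarith
      _ = 1 := by field_simp
  have hg : Real.pi ^ 2 * (1 - 2 * δ) ^ 2 / 4 = (Real.pi * (1 - 2 * δ) / 2) ^ 2 := by ring
  have h6 := he 0 (Real.pi ^ 2 * (1 - 2 * δ) ^ 2 / 4) le_rfl (by positivity)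
    (by rw [hg]; exact pow_le_one₀ h3 h4) one_pos
  rw [integral_half _ (by positivity), hg, Real.sqrt_sq h3, h_zero] at h6
  rw [hg]
  have h7 : (1 - 1 / Real.pi * (2 * (Real.pi * (1 - 2 * δ) / 2))) / 2 = δ := by
    field_simp
    ring
  rw [h7, zero_add] at h6
  exact h6

/-- `R(1/2 - 1/π) ≤ 1/2` -/
theorem t_half (he : S_ellip) : R (1 / 2 - 1 / Real.pi) ≤ 1 / 2 := by
  have hpi := Real.pi_pos
  have h1 := t_curve he (1 / 2 - 1 / Real.pi) le_rfl (by
    have : 0 < 1 / Real.pi := by positivity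
    linarith)
  have h2 : Real.pi ^ 2 * (1 - 2 * (1 / 2 - 1 / Real.pi)) ^ 2 / 4 = 1 := by
    field_simp
    ring
  rw [h2, h_one] at h1
  exact h1

end Pool.Agent.W483.FB
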