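import Pool.Agent.W483.FB.Main
import Pool.Agent.W800.FB.Basis1
import Pool.Agent.W800.FB.Deph
import Pool.Agent.W800.FB.Lin
import Pool.Agent.W578.FB.Ellip

/-!
# FB: all parts
-/

namespace Pool.Agent.W483.FB

theorem full_mat : S_mat :=
  mat (Pool.Agent.W800.FB.t_basis1 joint alg) (Pool.Agent.W800.FB.Deph.t_deph alg)
    Pool.Agent.W800.FB.Lin.t_lin

theorem full_value : S_value :=
  t_value (site (Pool.Agent.W800.FB.t_basis1 joint alg) (Pool.Agent.W800.FB.Deph.t_deph alg))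
    Pool.Agent.W800.FB.Lin.t_lin

theorem full_ellip : S_ellip := Pool.Agent.W578.FB.t_ellip full_value rate

theorem full_curve : ∀ δ : ℝ, 1 / 2 - 1 / Real.pi ≤ δ → δ < 1 / 2 →
    R δ ≤ h (Real.pi ^ 2 * (1 - 2 * δ) ^ 2 / 4) / 2 := t_curve full_ellip

theorem full_half : R (1 / 2 - 1 / Real.pi) ≤ 1 / 2 := t_half full_ellip

end Pool.Agent.W483.FB
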