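import Pool.Agent.W483.FB.Full
import Pool.Agent.W382.FB.Num

/-!
# FB: all parts, with the numerical comparison
-/

namespace Pool.Agent.W483.FB

theorem full_num : 1 / 2 < B (1 / 2 - 1 / Real.pi) := Pool.Agent.W382.FB.Num.t_num

end Pool.Agent.W483.FB
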