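import Pool.Agent.W483.FB.Value
import Pool.Agent.W483.FB.Curve
import Pool.Agent.W632.FB.Cliff
import Pool.Agent.W253.FB.Joint
import Pool.Agent.W571.FB.Pw
import Pool.Agent.W571.FB.Site
import Pool.Agent.W925.FB.Alg
import Pool.Agent.W305.FB.Basis2
import Pool.Agent.W335.FB.Rel
import Pool.Agent.W376.FB.Energy
import Pool.Agent.W407.FB.Diag
import Pool.Agent.W174.FB.Rate
import Pool.Agent.W32.FB.Gen
import Pool.Agent.W930.FB.Mat
import Pool.Agent.W351.FB.Two

/-!
# FB: assembly
-/

namespace Pool.Agent.W483.FB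

theorem alg : S_alg := Pool.Agent.W925.FB.t_alg
theorem joint : S_joint := Pool.Agent.W253.FB.t_joint
theorem pwt : S_pw := Pool.Agent.W571.FB.t_pw
theorem cliff : S_cliff := Pool.Agent.W632.FB.t_cliff
theorem basis2 : S_basis2 := Pool.Agent.W305.FB.t_basis2 joint alg
theorem rel : S_rel := Pool.Agent.W335.FB.t_rel alg
theorem energy : S_energy := Pool.Agent.W376.FB.t_energy alg pwt
theorem diag : S_diag := Pool.Agent.W407.FB.t_diag alg pwt
theorem rate : S_rate := Pool.Agent.W174.FB.t_rate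

theorem site (h5 : S_basis1) (h9 : S_deph) : S_site :=
  Pool.Agent.W571.FB.t_site cliff pwt alg h5 basis2 rel energy h9 diag

theorem mat (h5 : S_basis1) (h9 : S_deph) (h12 : S_lin) : S_mat :=
  Pool.Agent.W930.FB.t_mat (Pool.Agent.W32.FB.t_gen (t_value (site h5 h9) h12) rate)

theorem two : S_two := Pool.Agent.W351.FB.t_two

end Pool.Agent.W483.FB
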