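import Pool.Agent.H235R2.QLP.Rate
import Pool.Agent.H390R2.LP.Main

/-!
# Fermionic (Clifford) states for the noncommutative linear programming bound for binary codes

Definitions and statements. Every `S_...` is a `Prop` that is proved in another module of this
folder (or of the folder of the seat that took the part).
-/

open Finset Matrix

namespace Pool.Agent.W483.FB

open Pool.Agent.H390R2.LP Pool.Agent.H235R2.QLP

/-- sign of a bit -/
def sg (b : Bool) : ℝ := if b then -1 else 1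

/-- flip the bit `j` -/
def flp {n : ℕ} (j : Fin n) (s : Fin n → Bool) : Fin n → Bool := Function.update s j (!s j)

/-- product weights -/
noncomputable def pw {n : ℕ} (nu : Fin n → ℝ) (s : Fin n → Bool) : ℝ :=
  ∏ j, (1 + nu j * sg (s j)) / 2

/-- orthonormal families -/
def Orth {ι κ : Type} [DecidableEq ι] [Fintype κ] (u : ι → κ → ℝ) : Prop :=
  ∀ a b, ∑ ω, u a ω * u b ω = if a = b then 1 else 0

/-- square matrices on the cube -/
abbrev Mat (n : ℕ) := Matrix (Fin n → Bool) (Fin n → Bool) ℝ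

/-- `2n` anticommuting generators, `n` of them symmetric with square `1` and `n` antisymmetric with
square `-1`, acting on functions on the cube -/
structure Cliff (n : ℕ) where
  e : Fin n → Mat n
  f : Fin n → Mat n
  e_tr : ∀ i, (e i)ᵀ = e i
  f_tr : ∀ i, (f i)ᵀ = -f i
  e_sq : ∀ i, e i * e i = 1
  f_sq : ∀ i, f i * f i = -1
  ee : ∀ i j, i ≠ j → e i * e j + e j * e i = 0
  ff : ∀ i j, i ≠ j → f i * f j + f j * f i = 0
  ef : ∀ i j, e i * f j + f j * e i = 0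

/-- linear combinations of the symmetric generators -/
def Cliff.E {n : ℕ} (c : Cliff n) (v : Fin n → ℝ) : Mat n := ∑ i, v i • c.e i

/-- linear combinations of the antisymmetric generators -/
def Cliff.F {n : ℕ} (c : Cliff n) (v : Fin n → ℝ) : Mat n := ∑ i, v i • c.f i

/-- the matrix with eigenvectors `u` and eigenvalues `lam` -/
def rhoM {n : ℕ} (u : (Fin n → Bool) → (Fin n → Bool) → ℝ) (lam : (Fin n → Bool) → ℝ) : Mat n :=
  ∑ s, lam s • Matrix.vecMulVec (u s) (u s)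

/-- the symmetric matrix with eigenvectors `a` and eigenvalues `nu`, applied to `v` -/
def Bop {n : ℕ} (a : Fin n → Fin n → ℝ) (nu : Fin n → ℝ) (v : Fin n → ℝ) : Fin n → ℝ :=
  fun i => ∑ k, nu k * (∑ l, a k l * v l) * a k i

/-- position: the value of the first bit -/
def pos {n : ℕ} (ω : Fin (n + 1) → Bool) : Fin 2 := if ω 0 then 1 else 0

/-! ### Parts -/

/-- **FB-1.** existence of the generators, the first one being diagonal -/
def S_cliff : Prop := ∀ n : ℕ, ∃ c : Cliff (n + 1),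
  c.e 0 = Matrix.diagonal fun ω : Fin (n + 1) → Bool => sg (ω 0)

/-- **FB-2.** joint eigenbasis of commuting symmetric involutions -/
def S_joint : Prop := ∀ (n : ℕ) (C D : Fin n → Mat n), (∀ j, (C j)ᵀ = C j) →
  (∀ j, C j * C j = 1) → (∀ i j, C i * C j = C j * C i) → (∀ j, (D j)ᵀ * D j = 1) →
  (∀ j, D j * C j = -(C j * D j)) → (∀ j k, j ≠ k → D j * C k = C k * D j) →
  ∃ u : (Fin n → Bool) → (Fin n → Bool) → ℝ, Orth u ∧ ∀ s j, (C j).mulVec (u s) = sg (s j) • u s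

/-- **FB-3.** products of two-point distributions -/
def S_pw : Prop := ∀ (n : ℕ) (nu : Fin n → ℝ),
  (∑ s, pw nu s = 1) ∧
  (∑ s, Real.negMulLog (pw nu s) = ∑ j, Real.binEntropy ((1 + nu j) / 2)) ∧
  (∀ r : (Fin n → Bool) → ℝ,
    (∀ s j, (1 - nu j * sg (s j)) * r s = (1 + nu j * sg (s j)) * r (flp j s)) →
    ∀ s, r s = (∑ t, r t) * pw nu s) ∧
  ((∀ j, |nu j| ≤ 1) → (∀ s, 0 ≤ pw nu s) ∧
    ∀ j, ∑ s, √(pw nu s * pw nu (flp j s)) = √(1 - nu j ^ 2))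

/-- **FB-4.** algebra of the linear combinations of the generators -/
def S_alg : Prop := ∀ (n : ℕ) (c : Cliff n) (v w : Fin n → ℝ),
  c.E v * c.E w + c.E w * c.E v = (2 * ∑ i, v i * w i) • (1 : Mat n) ∧
  c.F v * c.F w + c.F w * c.F v = (-(2 * ∑ i, v i * w i)) • (1 : Mat n) ∧
  c.E v * c.F w + c.F w * c.E v = 0 ∧ (c.E v)ᵀ = c.E v ∧ (c.F v)ᵀ = -c.F v

/-- **FB-5.** joint eigenbasis of the operators `E (a j) F (a j)` -/
def S_basis1 : Prop := ∀ (n : ℕ) (c : Cliff n) (a : Fin n → Fin n → ℝ), Orth a →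
  ∃ u : (Fin n → Bool) → (Fin n → Bool) → ℝ, Orth u ∧
    ∀ s j, (c.E (a j) * c.F (a j)).mulVec (u s) = sg (s j) • u s

/-- **FB-6.** joint eigenbasis of the first generator and of the operators `E (a j) F (b j)` -/
def S_basis2 : Prop := ∀ (n : ℕ) (c : Cliff (n + 1)) (a b : Fin n → Fin (n + 1) → ℝ)
  (b0 : Fin (n + 1) → ℝ), Orth a → (∀ j, a j 0 = 0) → Orth b → ∑ k, b0 k * b0 k = 1 →
  (∀ j, ∑ k, b0 k * b j k = 0) →
  ∃ w : (Fin (n + 1) → Bool) → (Fin (n + 1) → Bool) → ℝ, Orth w ∧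
    (∀ s, (c.e 0).mulVec (w s) = sg (s 0) • w s) ∧
    ∀ s (j : Fin n), (c.E (a j) * c.F (b j)).mulVec (w s) = sg (s j.succ) • w s

/-- **FB-7.** relations between the generators and the state -/
def S_rel : Prop := ∀ (n : ℕ) (c : Cliff n) (a : Fin n → Fin n → ℝ)
  (u : (Fin n → Bool) → (Fin n → Bool) → ℝ) (nu : Fin n → ℝ), Orth a → Orth u →
  (∀ s j, (c.E (a j) * c.F (a j)).mulVec (u s) = sg (s j) • u s) →
  ∀ v : Fin n → ℝ,
    (c.E v * rhoM u (pw nu) - rhoM u (pw nu) * c.E v =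
      c.F (Bop a nu v) * rhoM u (pw nu) + rhoM u (pw nu) * c.F (Bop a nu v)) ∧
    (c.F v * rhoM u (pw nu) - rhoM u (pw nu) * c.F v =
      c.E (Bop a nu v) * rhoM u (pw nu) + rhoM u (pw nu) * c.E (Bop a nu v))

/-- **FB-8.** energy of the state -/
def S_energy : Prop := ∀ (n : ℕ) (c : Cliff n) (a : Fin n → Fin n → ℝ)
  (u : (Fin n → Bool) → (Fin n → Bool) → ℝ) (nu : Fin n → ℝ), Orth a → Orth u →
  (∀ s j, (c.E (a j) * c.F (a j)).mulVec (u s) = sg (s j) • u s) → (∀ j, |nu j| ≤ 1) →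
  ∀ v : Fin n → ℝ,
    ∑ s, ∑ t, √(pw nu s * pw nu t) * (u s ⬝ᵥ (c.E v).mulVec (u t)) ^ 2 =
      ∑ j, (∑ l, a j l * v l) ^ 2 * √(1 - nu j ^ 2)

/-- data of the second family of modes: `a' j`, `b' j`, `b0`, `nu' j` -/
structure Dat (n : ℕ) (a : Fin (n + 1) → Fin (n + 1) → ℝ) (nu : Fin (n + 1) → ℝ)
    (nu' : Fin n → ℝ) where
  a' : Fin n → Fin (n + 1) → ℝ
  b' : Fin n → Fin (n + 1) → ℝ
  b0 : Fin (n + 1) → ℝ
  kap : Fin n → ℝ
  gam : ℝ
  a'_orth : Orth a'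
  a'_zero : ∀ j, a' j 0 = 0
  b'_orth : Orth b'
  b0_unit : ∑ k, b0 k * b0 k = 1
  b0_orth : ∀ j, ∑ k, b0 k * b' j k = 0
  gam_ne : gam ≠ 0
  Ba : ∀ j, Bop a nu (a' j) = nu' j • b' j
  Bb : ∀ j, Bop a nu (b' j) = nu' j • a' j + kap j • Pi.single 0 1
  B0 : Bop a nu b0 = gam • Pi.single 0 1

/-- **FB-9.** relations between the generators and the dephased state -/
def S_deph : Prop := ∀ (n : ℕ) (c : Cliff (n + 1)) (a : Fin (n + 1) → Fin (n + 1) → ℝ)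
  (nu : Fin (n + 1) → ℝ) (nu' : Fin n → ℝ) (D : Dat n a nu nu') (ρ : Mat (n + 1)),
  (∀ v, c.E v * ρ - ρ * c.E v = c.F (Bop a nu v) * ρ + ρ * c.F (Bop a nu v)) →
  (∀ v, c.F v * ρ - ρ * c.F v = c.E (Bop a nu v) * ρ + ρ * c.E (Bop a nu v)) →
  (∀ j, c.E (D.a' j) * (ρ + c.e 0 * ρ * c.e 0) - (ρ + c.e 0 * ρ * c.e 0) * c.E (D.a' j) =
    nu' j • (c.F (D.b' j) * (ρ + c.e 0 * ρ * c.e 0) + (ρ + c.e 0 * ρ * c.e 0) * c.F (D.b' j))) ∧
  (∀ j, c.F (D.b' j) * (ρ + c.e 0 * ρ * c.e 0) - (ρ + c.e 0 * ρ * c.e 0) * c.F (D.b' j) =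
    nu' j • (c.E (D.a' j) * (ρ + c.e 0 * ρ * c.e 0) + (ρ + c.e 0 * ρ * c.e 0) * c.E (D.a' j))) ∧
  c.F D.b0 * (ρ + c.e 0 * ρ * c.e 0) = (ρ + c.e 0 * ρ * c.e 0) * c.F D.b0 ∧
  c.e 0 * (ρ + c.e 0 * ρ * c.e 0) = (ρ + c.e 0 * ρ * c.e 0) * c.e 0

/-- **FB-10.** the relations determine the matrix elements of the dephased state in the second
eigenbasis -/
def S_diag : Prop := ∀ (n : ℕ) (c : Cliff (n + 1)) (a b : Fin n → Fin (n + 1) → ℝ)
  (b0 : Fin (n + 1) → ℝ) (nu' : Fin n → ℝ)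
  (w : (Fin (n + 1) → Bool) → (Fin (n + 1) → Bool) → ℝ) (σ : Mat (n + 1)),
  Orth a → (∀ j, a j 0 = 0) → Orth b → ∑ k, b0 k * b0 k = 1 → (∀ j, ∑ k, b0 k * b j k = 0) →
  Orth w → (∀ s, (c.e 0).mulVec (w s) = sg (s 0) • w s) →
  (∀ s (j : Fin n), (c.E (a j) * c.F (b j)).mulVec (w s) = sg (s j.succ) • w s) →
  (∀ j, c.E (a j) * σ - σ * c.E (a j) = nu' j • (c.F (b j) * σ + σ * c.F (b j))) →
  (∀ j, c.F (b j) * σ - σ * c.F (b j) = nu' j • (c.E (a j) * σ + σ * c.E (a j))) →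
  c.F b0 * σ = σ * c.F b0 → c.e 0 * σ = σ * c.e 0 →
  ∀ s t, w s ⬝ᵥ σ.mulVec (w t) = if s = t then σ.trace * pw (Fin.cons 0 nu') s else 0

/-- **FB-11.** the site -/
def S_site : Prop := ∀ (n : ℕ) (a : Fin (n + 1) → Fin (n + 1) → ℝ) (nu : Fin (n + 1) → ℝ)
  (nu' : Fin n → ℝ) (_ : Dat n a nu nu'), Orth a → (∀ j, |nu j| ≤ 1) →
  ∃ s : Site (Fin (n + 1) → Bool) (Fin 2),
    cc s = Real.log 2 + ∑ j, Real.binEntropy ((1 + nu' j) / 2)
      - ∑ j, Real.binEntropy ((1 + nu j) / 2) ∧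
    EH s = (1 - ∑ j, a j 0 ^ 2 * √(1 - nu j ^ 2)) / 2

/-- **FB-12.** the linear algebra: the second family of modes -/
def S_lin : Prop := ∀ (n : ℕ) (a : Fin (n + 1) → Fin (n + 1) → ℝ) (x : Fin (n + 1) → ℝ)
  (α : Fin n → Fin n → ℝ) (x' : Fin n → ℝ), Orth a → Orth α → (∀ j, 0 ≤ x j) → (∀ j, x j < 1) →
  (∀ i l : Fin n, ∑ k, x k * a k i.succ * a k l.succ = ∑ k, x' k * α k i * α k l) →
  Nonempty (Dat n a (fun j => √(1 - x j)) fun j => √(1 - x' j))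

/-- the entropy function of McEliece, Rodemich, Rumsey and Welch, in natural units:
`h(x) = H(1/2 - 1/2 √(1-x))` -/
noncomputable def hM (x : ℝ) : ℝ := Real.binEntropy ((1 + √(1 - x)) / 2)

/-- **FB-13.** the value of the states -/
def S_value : Prop := ∀ (n : ℕ) (a : Fin (n + 1) → Fin (n + 1) → ℝ) (x : Fin (n + 1) → ℝ)
  (α : Fin n → Fin n → ℝ) (x' : Fin n → ℝ), Orth a → Orth α → (∀ j, 0 ≤ x j) → (∀ j, x j < 1) →
  (∀ i l : Fin n, ∑ k, x k * a k i.succ * a k l.succ = ∑ k, x' k * α k i * α k l) →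
  ∃ (Ω : Type) (_ : Fintype Ω) (_ : DecidableEq Ω) (s : Site Ω (Fin 2)),
    cc s = Real.log 2 + ∑ j, hM (x' j) - ∑ j, hM (x j) ∧
    EH s = (1 - ∑ j, a j 0 ^ 2 * √(x j)) / 2

end Pool.Agent.W483.FB
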