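import Pool.Agent.W483.FB.Stm

/-!
# Fermionic states: statements about the asymptotic rate of binary codes
-/

open Finset Matrix Filter
open scoped Topology

namespace Pool.Agent.W483.FB

open Pool.Agent.H390R2.LP Pool.Agent.H235R2.QLP

/-- `A(n,d)`: the largest size of a binary code of length `n` any two distinct words of which
differ in at least `d` coordinates. -/
noncomputable def A (n d : ℕ) : ℕ :=
  sSup {k | ∃ C : Finset (Fin n → Bool),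
    (∀ x ∈ C, ∀ y ∈ C, x ≠ y → d ≤ hammingDist x y) ∧ C.card = k}

/-- `R(δ) = limsup (1/n) log₂ A(n, ⌈δ n⌉)`. -/
noncomputable def R (δ : ℝ) : ℝ :=
  limsup (fun n : ℕ => Real.logb 2 (A n ⌈δ * n⌉₊) / n) atTop

/-- The binary entropy function `H₂(x) = -x log₂ x - (1-x) log₂ (1-x)`. -/
noncomputable def H2 (x : ℝ) : ℝ := -x * Real.logb 2 x - (1 - x) * Real.logb 2 (1 - x)

/-- `h(x) = H₂(1/2 - 1/2 √(1-x))`. -/
noncomputable def h (x : ℝ) : ℝ := H2 (1 / 2 - 1 / 2 * √(1 - x))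

/-- The second linear programming bound
`B(δ) = min_{0 < u ≤ 1 - 2δ} [1 + h(u²) - h(u² + 2δu + 2δ)]`. -/
noncomputable def B (δ : ℝ) : ℝ :=
  sInf ((fun u : ℝ => 1 + h (u ^ 2) - h (u ^ 2 + 2 * δ * u + 2 * δ)) '' Set.Ioc 0 (1 - 2 * δ))

/-- the trace `Tr h(X)`: the sum of `h` over the real eigenvalues of `X` (roots of the
characteristic polynomial, with multiplicity) -/
noncomputable def trh {ι : Type} [Fintype ι] [DecidableEq ι] (X : Matrix ι ι ℝ) : ℝ :=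
  (X.charpoly.roots.map h).sum

/-- **FB-14.** from sites to rates -/
def S_rate : Prop := ∀ δ β : ℝ, 0 < δ → (∀ ε : ℝ, 0 < ε →
  ∃ (Ω : Type) (_ : Fintype Ω) (_ : DecidableEq Ω) (s : Site Ω (Fin 2)),
    EH s ≤ δ + ε ∧ 1 - cc s / Real.log 2 ≤ β + ε) → R δ ≤ β

/-- **FB-15.** the bound in terms of spectral decompositions -/
def S_gen : Prop := ∀ (n : ℕ) (a : Fin (n + 1) → Fin (n + 1) → ℝ) (x : Fin (n + 1) → ℝ)
  (α : Fin n → Fin n → ℝ) (x' : Fin n → ℝ), Orth a → Orth α → (∀ j, 0 ≤ x j) → (∀ j, x j ≤ 1) →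
  (∀ i l : Fin n, ∑ k, x k * a k i.succ * a k l.succ = ∑ k, x' k * α k i * α k l) →
  ∀ δ : ℝ, 0 < δ → ∑ j, a j 0 ^ 2 * √(x j) = 1 - 2 * δ → R δ ≤ ∑ j, h (x j) - ∑ j, h (x' j)

/-- **FB-16.** the bound in terms of matrices -/
def S_mat : Prop := ∀ (n : ℕ) (Y : Matrix (Fin (n + 1)) (Fin (n + 1)) ℝ), Y.PosSemidef →
  (1 - Y).PosSemidef → ∀ δ : ℝ, 0 < δ → Y 0 0 = 1 - 2 * δ →
  R δ ≤ trh (Y * Y) - trh ((Y * Y).submatrix Fin.succ Fin.succ)

/-- **FB-17.** the expression of the second linear programming bound is the value of a `2 × 2`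
matrix -/
def S_two : Prop := ∀ δ u : ℝ, 0 < δ → 0 < u → u ≤ 1 - 2 * δ →
  ∃ Y : Matrix (Fin 2) (Fin 2) ℝ, Y.PosSemidef ∧ (1 - Y).PosSemidef ∧ Y 0 0 = 1 - 2 * δ ∧
    trh (Y * Y) - trh ((Y * Y).submatrix (Fin.succ (n := 1)) (Fin.succ (n := 1))) =
      1 + h (u ^ 2) - h (u ^ 2 + 2 * δ * u + 2 * δ)

/-- **FB-18.** chains: for `0 ≤ α ≤ γ ≤ 1` the rate at
`δ = 1/2 - 1/(2π) ∫₀^π √(α + (γ-α) (1 - cos θ)/2) dθ` is at most `(h(α) + h(γ))/2` -/
def S_ellip : Prop := ∀ α γ : ℝ, 0 ≤ α → α ≤ γ → γ ≤ 1 → α < 1 →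
  R ((1 - (1 / Real.pi) * ∫ θ in (0 : ℝ)..Real.pi, √(α + (γ - α) * ((1 - Real.cos θ) / 2))) / 2) ≤
    (h α + h γ) / 2

/-- **FB-19.** the second linear programming bound is larger than `1/2` at `1/2 - 1/π` -/
def S_num : Prop := 1 / 2 < B (1 / 2 - 1 / Real.pi)

end Pool.Agent.W483.FB
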