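import Pool.Agent.W483.FB.Stm

/-!
# FB-13: the value of the states
-/

open Finset Matrix

namespace Pool.Agent.W483.FB

open Pool.Agent.H390R2.LP Pool.Agent.H235R2.QLP

theorem t_value (h1 : S_site) (h2 : S_lin) : S_value := by
  intro n a x α x' ha hα h0 hlt hX
  obtain ⟨D⟩ := h2 n a x α x' ha hα h0 hlt hX
  obtain ⟨s, hcc, hE⟩ := h1 n a (fun j => √(1 - x j)) (fun j => √(1 - x' j)) D ha (by
    intro j
    have : 0 ≤ √(1 - x j) := Real.sqrt_nonneg _
    rw [abs_of_nonneg this]
    exact Real.sqrt_le_one.mpr (by linarith [h0 j]))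
  refine ⟨_, inferInstance, inferInstance, s, ?_, ?_⟩
  · rw [hcc]; rfl
  · rw [hE]
    congr 2
    refine Finset.sum_congr rfl fun j _ => ?_
    have : 0 ≤ 1 - x j := by linarith [hlt j]
    rw [Real.sq_sqrt this, sub_sub_cancel]

end Pool.Agent.W483.FB
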